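import Pool.Agent.Helper73.EK.DefsE2
import Pool.Agent.Helper73.EK.Pois
set_option autoImplicit false
open Complex MeasureTheory Metric Set
open scoped Real ComplexConjugate

/-! Project EK, E2c: the entropy and its derivative at height `-1`. -/

namespace Pool.Agent.Helper6.EK

open Pool.Agent.Helper52.EK Pool.Agent.Helper73.EK

theorem exp_lt_one' {t : ℝ} (ht : t < 0) : Real.exp t < 1 := by
  rw [← Real.exp_zero]
  exact Real.exp_lt_exp.2 ht

/-- bounds of the Poisson kernel -/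
theorem Pk_bounds {t : ℝ} (ht : t < 0) (α θ : ℝ) :
    (1 - Real.exp t) / (1 + Real.exp t) ≤ Pk (Complex.exp (α * I)) (ep t θ) ∧
      Pk (Complex.exp (α * I)) (ep t θ) ≤ (1 + Real.exp t) / (1 - Real.exp t) := by
  have h0 : 0 < Real.exp t := Real.exp_pos t
  have h1 : Real.exp t < 1 := exp_lt_one' ht
  have h2 : ‖Complex.exp (α * I) - ep t θ‖ ≤ 1 + Real.exp t := by
    have h := norm_sub_le (Complex.exp (α * I)) (ep t θ)
    rwa [norm_cis, norm_ep] at h
  have h3 : 1 - Real.exp t ≤ ‖Complex.exp (α * I) - ep t θ‖ := by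
    have h := norm_sub_norm_le (Complex.exp (α * I)) (ep t θ)
    rwa [norm_cis, norm_ep] at h
  have h4 : 0 < ‖Complex.exp (α * I) - ep t θ‖ := by linarith
  unfold Pk
  rw [norm_ep]
  constructor
  · rw [div_le_div_iff₀ (by linarith) (by positivity)]
    have h5 : ‖Complex.exp (α * I) - ep t θ‖ ^ 2 ≤ (1 + Real.exp t) ^ 2 :=
      pow_le_pow_left₀ h4.le h2 2
    nlinarith
  · rw [div_le_div_iff₀ (by positivity) (by linarith)]
    have h5 : (1 - Real.exp t) ^ 2 ≤ ‖Complex.exp (α * I) - ep t θ‖ ^ 2 :=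
      pow_le_pow_left₀ (by linarith) h3 2
    nlinarith

theorem continuous_F {ρ : ℝ → ℝ} (h : Dens ρ) {t : ℝ} (ht : t < 0) :
    Continuous (Function.uncurry fun θ α : ℝ => Pk (Complex.exp (α * I)) (ep t θ) * ρ α) := by
  rw [Function.uncurry_def]
  refine Continuous.mul ?_ (h.cont.comp continuous_snd)
  exact Continuous.comp (g := fun p : ℝ × ℝ => Pk (Complex.exp (p.1 * I)) (ep t p.2))
    (f := fun p : ℝ × ℝ => (p.2, p.1)) (continuous_Pk ht)
    (continuous_snd.prodMk continuous_fst)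

theorem continuous_uu {ρ : ℝ → ℝ} (h : Dens ρ) {t : ℝ} (ht : t < 0) :
    Continuous (uu ρ t) := by
  have h1 : Continuous fun θ : ℝ => ∫ α in (0:ℝ)..(2 * π),
      Pk (Complex.exp (α * I)) (ep t θ) * ρ α :=
    intervalIntegral.continuous_parametric_intervalIntegral_of_continuous'
      (continuous_F h ht) 0 (2 * π)
  exact continuous_const.mul h1

theorem cont_alpha {ρ : ℝ → ℝ} (h : Dens ρ) {t : ℝ} (ht : t < 0) (θ : ℝ) :
    Continuous fun α : ℝ => Pk (Complex.exp (α * I)) (ep t θ) * ρ α := by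
  have h2 : Continuous fun α : ℝ => ((θ, α) : ℝ × ℝ) := Continuous.prodMk_right θ
  have h3 := (continuous_F h ht).comp h2
  exact h3

theorem uu_bounds {ρ : ℝ → ℝ} (h : Dens ρ) {t : ℝ} (ht : t < 0) (θ : ℝ) :
    (1 - Real.exp t) / (1 + Real.exp t) ≤ uu ρ t θ ∧
      uu ρ t θ ≤ (1 + Real.exp t) / (1 - Real.exp t) := by
  have hpi : (0:ℝ) < 2 * π := by positivity
  have key : ∀ c : ℝ, (2 * π)⁻¹ * ∫ α in (0:ℝ)..(2 * π), c * ρ α = c := by
    intro c
    rw [intervalIntegral.integral_const_mul, h.one]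
    field_simp
  unfold uu
  constructor
  · conv_lhs => rw [← key ((1 - Real.exp t) / (1 + Real.exp t))]
    refine mul_le_mul_of_nonneg_left ?_ (by positivity)
    refine intervalIntegral.integral_mono_on hpi.le
      ((continuous_const.mul h.cont).intervalIntegrable _ _)
      ((cont_alpha h ht θ).intervalIntegrable _ _) fun α _ => ?_
    exact mul_le_mul_of_nonneg_right (Pk_bounds ht α θ).1 (h.pos α).le
  · conv_rhs => rw [← key ((1 + Real.exp t) / (1 - Real.exp t))]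
    refine mul_le_mul_of_nonneg_left ?_ (by positivity)
    refine intervalIntegral.integral_mono_on hpi.le
      ((cont_alpha h ht θ).intervalIntegrable _ _)
      ((continuous_const.mul h.cont).intervalIntegrable _ _) fun α _ => ?_
    exact mul_le_mul_of_nonneg_right (Pk_bounds ht α θ).2 (h.pos α).le

theorem uu_pos' {ρ : ℝ → ℝ} (h : Dens ρ) {t : ℝ} (ht : t < 0) (θ : ℝ) : 0 < uu ρ t θ := by
  refine lt_of_lt_of_le ?_ (uu_bounds h ht θ).1
  have h0 : 0 < Real.exp t := Real.exp_pos t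
  have h1 : Real.exp t < 1 := exp_lt_one' ht
  exact div_pos (by linarith) (by linarith)

/-- the mean of `u` -/
theorem mean_uu {ρ : ℝ → ℝ} (h : Dens ρ) {t : ℝ} (ht : t < 0) :
    ∫ θ in (-π)..π, uu ρ t θ = 2 * π := by
  unfold uu
  rw [intervalIntegral.integral_const_mul]
  have h1 : ∫ θ in (-π)..π, ∫ α in (0:ℝ)..(2 * π), Pk (Complex.exp (α * I)) (ep t θ) * ρ α =
      ∫ α in (0:ℝ)..(2 * π), ∫ θ in (-π)..π, Pk (Complex.exp (α * I)) (ep t θ) * ρ α := by
    refine intervalIntegral_intervalIntegral_swap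
      (F := fun θ α : ℝ => Pk (Complex.exp (α * I)) (ep t θ) * ρ α) ?_
    have h2 : Continuous (Function.uncurry fun θ α : ℝ =>
        Pk (Complex.exp (α * I)) (ep t θ) * ρ α) := continuous_F h ht
    refine (h2.continuousOn.integrableOn_compact
      (isCompact_uIcc.prod isCompact_uIcc) :
        IntegrableOn _ (uIcc (-π) π ×ˢ uIcc 0 (2 * π))).mono_set ?_
    exact prod_mono uIoc_subset_uIcc uIoc_subset_uIcc
  rw [h1]
  have h3 : ∀ α : ℝ, ∫ θ in (-π)..π, Pk (Complex.exp (α * I)) (ep t θ) * ρ α =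
      2 * π * ρ α := by
    intro α
    rw [intervalIntegral.integral_mul_const, integral_Pk' ht α]
  simp_rw [h3]
  rw [intervalIntegral.integral_const_mul, h.one]
  field_simp

/-- the Poisson kernel is Lipschitz in the radius -/
theorem Pk_lip {s t s₁ : ℝ} (hs : s ≤ s₁) (ht : t ≤ s₁) (hs₁ : s₁ < 0) (α θ : ℝ) :
    |Pk (Complex.exp (α * I)) (ep t θ) - Pk (Complex.exp (α * I)) (ep s θ)| ≤
      8 / (1 - Real.exp s₁) ^ 4 * |t - s| := by
  set ζ := Complex.exp (α * I) with hζ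
  set e := Complex.exp (θ * I) with he
  have hζ1 : ζ.re * ζ.re + ζ.im * ζ.im = 1 := by
    have h := norm_cis α
    rw [← hζ] at h
    have h2 : ‖ζ‖ ^ 2 = 1 := by rw [h, one_pow]
    rw [← Complex.normSq_eq_norm_sq, Complex.normSq_apply] at h2
    exact h2
  have he1 : e.re * e.re + e.im * e.im = 1 := by
    have h := norm_cis θ
    rw [← he] at h
    have h2 : ‖e‖ ^ 2 = 1 := by rw [h, one_pow]
    rw [← Complex.normSq_eq_norm_sq, Complex.normSq_apply] at h2
    exact h2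
  set c := ζ.re * e.re + ζ.im * e.im with hc
  have hc1 : |c| ≤ 1 := by
    rw [abs_le]
    constructor <;> nlinarith [sq_nonneg (ζ.re - e.re), sq_nonneg (ζ.im - e.im),
      sq_nonneg (ζ.re + e.re), sq_nonneg (ζ.im + e.im)]
  have hD : ∀ t : ℝ, ‖ζ - ep t θ‖ ^ 2 = 1 - 2 * Real.exp t * c + Real.exp t ^ 2 := by
    intro t
    rw [ep_eq, ← he, ← Complex.normSq_eq_norm_sq, Complex.normSq_apply]
    have h1 : (ζ - (Real.exp t : ℂ) * e).re = ζ.re - Real.exp t * e.re := by
      rw [Complex.sub_re, Complex.re_ofReal_mul]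
    have h2 : (ζ - (Real.exp t : ℂ) * e).im = ζ.im - Real.exp t * e.im := by
      rw [Complex.sub_im, Complex.im_ofReal_mul]
    rw [h1, h2, hc]
    linear_combination hζ1 + Real.exp t ^ 2 * he1
  have hPk : ∀ t : ℝ, Pk ζ (ep t θ) =
      (1 - Real.exp t ^ 2) / (1 - 2 * Real.exp t * c + Real.exp t ^ 2) := by
    intro t
    unfold Pk
    rw [hD, norm_ep]
  set r := Real.exp t with hr
  set q := Real.exp s with hq
  set δ := 1 - Real.exp s₁ with hδ
  have hE1 : Real.exp s₁ < 1 := exp_lt_one' hs₁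
  have hδ0 : 0 < δ := by rw [hδ]; linarith
  have hr0 : 0 < r := Real.exp_pos t
  have hq0 : 0 < q := Real.exp_pos s
  have hr1 : r ≤ Real.exp s₁ := Real.exp_le_exp.2 ht
  have hq1 : q ≤ Real.exp s₁ := Real.exp_le_exp.2 hs
  obtain ⟨hcl, hcu⟩ := abs_le.1 hc1
  have hDr : δ ^ 2 ≤ 1 - 2 * r * c + r ^ 2 := by
    have h1 : (1 - r) ^ 2 ≤ 1 - 2 * r * c + r ^ 2 := by nlinarith
    have h2 : δ ^ 2 ≤ (1 - r) ^ 2 := pow_le_pow_left₀ hδ0.le (by rw [hδ]; linarith) 2
    linarith
  have hDq : δ ^ 2 ≤ 1 - 2 * q * c + q ^ 2 := by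
    have h1 : (1 - q) ^ 2 ≤ 1 - 2 * q * c + q ^ 2 := by nlinarith
    have h2 : δ ^ 2 ≤ (1 - q) ^ 2 := pow_le_pow_left₀ hδ0.le (by rw [hδ]; linarith) 2
    linarith
  have hδ2 : 0 < δ ^ 2 := by positivity
  have hDr0 : 0 < 1 - 2 * r * c + r ^ 2 := lt_of_lt_of_le hδ2 hDr
  have hDq0 : 0 < 1 - 2 * q * c + q ^ 2 := lt_of_lt_of_le hδ2 hDq
  rw [hPk, hPk]
  have hdiff : (1 - r ^ 2) / (1 - 2 * r * c + r ^ 2) - (1 - q ^ 2) / (1 - 2 * q * c + q ^ 2) =
      (r - q) * (2 * c - 2 * (r + q) + 2 * r * q * c) /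
        ((1 - 2 * r * c + r ^ 2) * (1 - 2 * q * c + q ^ 2)) := by
    rw [div_sub_div _ _ hDr0.ne' hDq0.ne']
    congr 1
    ring
  rw [hdiff, abs_div, abs_mul]
  have hden : δ ^ 4 ≤ |(1 - 2 * r * c + r ^ 2) * (1 - 2 * q * c + q ^ 2)| := by
    rw [abs_of_pos (mul_pos hDr0 hDq0)]
    calc δ ^ 4 = δ ^ 2 * δ ^ 2 := by ring
      _ ≤ _ := mul_le_mul hDr hDq hδ2.le hDr0.le
  have hr1' : r < 1 := lt_of_le_of_lt hr1 hE1
  have hq1' : q < 1 := lt_of_le_of_lt hq1 hE1
  have hnum : |2 * c - 2 * (r + q) + 2 * r * q * c| ≤ 8 := by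
    have hrq : 0 ≤ r * q := by positivity
    have hrq1 : r * q ≤ 1 := by nlinarith
    rw [abs_le]
    constructor <;> nlinarith
  have hexp : |r - q| ≤ |t - s| := by
    have h1 : ∀ u v : ℝ, u ≤ v → v ≤ 0 → Real.exp v - Real.exp u ≤ v - u := by
      intro u v huv hv
      have h2 := Real.add_one_le_exp (u - v)
      have h3 : Real.exp u = Real.exp v * Real.exp (u - v) := by
        rw [← Real.exp_add]
        congr 1
        ring
      have h4 : Real.exp v ≤ 1 := Real.exp_le_one_iff.2 hv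
      have h5 := Real.exp_pos v
      rw [h3]
      nlinarith
    rcases le_total s t with hst | hst
    · rw [abs_of_nonneg (sub_nonneg.2 hst), abs_of_nonneg (sub_nonneg.2 (Real.exp_le_exp.2 hst))]
      exact h1 s t hst (by linarith)
    · rw [abs_of_nonpos (sub_nonpos.2 hst), abs_of_nonpos (sub_nonpos.2 (Real.exp_le_exp.2 hst))]
      have := h1 t s hst (by linarith)
      linarith
  calc |r - q| * |2 * c - 2 * (r + q) + 2 * r * q * c| /
        |(1 - 2 * r * c + r ^ 2) * (1 - 2 * q * c + q ^ 2)|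
      ≤ (|t - s| * 8) / δ ^ 4 := by
        refine div_le_div₀ (by positivity) ?_ (by positivity) hden
        exact mul_le_mul hexp hnum (abs_nonneg _) (abs_nonneg _)
    _ = 8 / δ ^ 4 * |t - s| := by ring

/-- the derivative of `u` in `t` at `-1` is bounded -/
theorem ut_bound {ρ : ℝ → ℝ} (h : Dens ρ) (θ : ℝ) :
    |ut ρ (-1) θ| ≤ 8 / (1 - Real.exp (-1 / 2)) ^ 4 := by
  have hpi : (0:ℝ) < 2 * π := by positivity
  have hE : Real.exp (-1 / 2 : ℝ) < 1 := exp_lt_one' (by norm_num)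
  have hpos : 0 < 1 - Real.exp (-1 / 2 : ℝ) := by linarith
  set L := 8 / (1 - Real.exp (-1 / 2 : ℝ)) ^ 4 with hL
  have hL0 : 0 ≤ L := by positivity
  change ‖deriv (fun t' => uu ρ t' θ) (-1)‖ ≤ L
  refine norm_deriv_le_of_lip' hL0 ?_
  filter_upwards [Iio_mem_nhds (show (-1:ℝ) < -1 / 2 by norm_num)] with t ht
  have ht' : t ≤ -1 / 2 := le_of_lt ht
  have ht0 : t < 0 := by linarith
  rw [Real.norm_eq_abs, Real.norm_eq_abs]
  change |uu ρ t θ - uu ρ (-1) θ| ≤ _
  unfold uu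
  rw [← mul_sub, ← intervalIntegral.integral_sub
    ((cont_alpha h ht0 θ).intervalIntegrable _ _)
    ((cont_alpha h (by norm_num : (-1:ℝ) < 0) θ).intervalIntegrable _ _), abs_mul,
    abs_of_pos (inv_pos.2 hpi)]
  have h1 : |∫ α in (0:ℝ)..(2 * π), (Pk (Complex.exp (α * I)) (ep t θ) * ρ α -
      Pk (Complex.exp (α * I)) (ep (-1) θ) * ρ α)| ≤
      ∫ α in (0:ℝ)..(2 * π), L * |t - -1| * ρ α := by
    rw [← Real.norm_eq_abs]
    refine intervalIntegral.norm_integral_le_of_norm_le hpi.le ?_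
      ((continuous_const.mul h.cont).intervalIntegrable _ _)
    refine Filter.Eventually.of_forall fun α _ => ?_
    rw [← sub_mul, norm_mul, Real.norm_eq_abs, Real.norm_eq_abs, abs_of_pos (h.pos α)]
    exact mul_le_mul_of_nonneg_right
      (Pk_lip (s₁ := -1 / 2) (by norm_num) ht' (by norm_num) α θ) (h.pos α).le
  rw [intervalIntegral.integral_const_mul, h.one] at h1
  calc (2 * π)⁻¹ * |∫ α in (0:ℝ)..(2 * π), (Pk (Complex.exp (α * I)) (ep t θ) * ρ α -
        Pk (Complex.exp (α * I)) (ep (-1) θ) * ρ α)|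
      ≤ (2 * π)⁻¹ * (L * |t - -1| * (2 * π)) :=
        mul_le_mul_of_nonneg_left h1 (inv_nonneg.2 hpi.le)
    _ = L * |t - -1| := by field_simp

theorem E2c : ∃ C : ℝ, ∀ ρ : ℝ → ℝ, Dens ρ → 0 ≤ AA ρ (-1) ∧ -C ≤ A1 ρ (-1) := by
  have hpi : (0:ℝ) < 2 * π := by positivity
  have h10 : (-1:ℝ) < 0 := by norm_num
  have hE0 : 0 < Real.exp (-1 : ℝ) := Real.exp_pos _
  have hE1 : Real.exp (-1 : ℝ) < 1 := exp_lt_one' h10
  have hE : Real.exp (-1 / 2 : ℝ) < 1 := exp_lt_one' (by norm_num)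
  have hpos : 0 < 1 - Real.exp (-1 / 2 : ℝ) := by linarith
  set L := 8 / (1 - Real.exp (-1 / 2 : ℝ)) ^ 4 with hL
  have hL0 : 0 ≤ L := by positivity
  set M := Real.log ((1 + Real.exp (-1)) / (1 - Real.exp (-1))) with hM
  have hM0 : 0 ≤ M := by
    apply Real.log_nonneg
    rw [le_div_iff₀ (by linarith)]
    linarith
  refine ⟨(1 + M) * L, fun ρ h => ⟨?_, ?_⟩⟩
  · have hcont := continuous_uu h h10
    have h1 : 0 ≤ ∫ θ in (-π)..π, (uu ρ (-1) θ * Real.log (uu ρ (-1) θ) - (uu ρ (-1) θ - 1)) := by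
      refine intervalIntegral.integral_nonneg (by linarith [Real.pi_pos]) fun θ _ => ?_
      have h2 := uu_pos' h h10 θ
      have h3 := Real.one_sub_inv_le_log_of_pos h2
      have h4 := mul_le_mul_of_nonneg_left h3 h2.le
      rw [mul_sub, mul_inv_cancel₀ h2.ne', mul_one] at h4
      linarith
    have hclog : Continuous fun θ => uu ρ (-1) θ * Real.log (uu ρ (-1) θ) :=
      hcont.mul (hcont.log fun θ => (uu_pos' h h10 θ).ne')
    have hc1 : Continuous fun θ => uu ρ (-1) θ - 1 := hcont.sub continuous_const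
    have hc2 : Continuous fun _ : ℝ => (1:ℝ) := continuous_const
    rw [intervalIntegral.integral_sub (hclog.intervalIntegrable _ _)
      (hc1.intervalIntegrable _ _),
      intervalIntegral.integral_sub (hcont.intervalIntegrable _ _)
      (hc2.intervalIntegrable _ _), mean_uu h h10] at h1
    have h5 : ∫ _θ in (-π)..π, (1:ℝ) = 2 * π := by
      rw [intervalIntegral.integral_const, smul_eq_mul, mul_one]
      ring
    rw [h5, sub_self, sub_zero] at h1
    unfold AA
    exact mul_nonneg (inv_nonneg.2 hpi.le) h1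
  · have hlog : ∀ θ, |1 + Real.log (uu ρ (-1) θ)| ≤ 1 + M := by
      intro θ
      obtain ⟨h1, h2⟩ := uu_bounds h h10 θ
      have h3 := uu_pos' h h10 θ
      have h4 : Real.log (uu ρ (-1) θ) ≤ M := Real.log_le_log h3 h2
      have h5 : -M ≤ Real.log (uu ρ (-1) θ) := by
        have h6 : -M = Real.log ((1 - Real.exp (-1)) / (1 + Real.exp (-1))) := by
          rw [hM, ← Real.log_inv, inv_div]
        rw [h6]
        exact Real.log_le_log (div_pos (by linarith) (by linarith)) h1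
      rw [abs_le]
      constructor <;> linarith
    have h1 : ‖∫ θ in (-π)..π, (1 + Real.log (uu ρ (-1) θ)) * ut ρ (-1) θ‖ ≤
        (1 + M) * L * |π - -π| := by
      refine intervalIntegral.norm_integral_le_of_norm_le_const fun θ _ => ?_
      rw [norm_mul, Real.norm_eq_abs, Real.norm_eq_abs]
      exact mul_le_mul (hlog θ) (ut_bound h θ) (abs_nonneg _) (by linarith)
    rw [Real.norm_eq_abs, show π - -π = 2 * π by ring, abs_of_pos hpi] at h1
    have h2 := (abs_le.1 h1).1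
    unfold A1
    have h3 : (2 * π)⁻¹ * (-((1 + M) * L * (2 * π))) = -((1 + M) * L) := by field_simp
    rw [← h3]
    exact mul_le_mul_of_nonneg_left h2 (inv_nonneg.2 hpi.le)

end Pool.Agent.Helper6.EK
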